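import Mathlib
import Pool.Agent.U746.LD.Fin

set_option autoImplicit false

/-!
# The critical scale `h(x) = C (log x)²` in Cramér's model and for small sieves: the exact values of `L(h)`, `U(h)`

For a set `Q` of natural numbers in the place of the primes let `R_h(x)`, `L(h)`, `U(h)` be the quantities of the
problem. We determine them in Cramér's model and in all models with a nondecreasing sieve `T` that is smaller than
every power of `log n` (the integers `m` without prime factors `p ≤ T(m)` are chosen independently with probability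
`∏_{p ≤ T(m)} (1 - 1/p)⁻¹ / log m`). Let `g(y) = 1 - y + y log y`; this function decreases from `g(0) = 1` to
`g(1) = 0` and increases to infinity from there on.

(1) For every `C > 0` we have, almost surely, `L(C (log x)²) = l` and `U(C (log x)²) = u`, where `u` is the solution
of `C g(u) = 1` with `u > 1`, and `l` is the solution of `C g(l) = 1` with `0 < l < 1` if `C > 1`, and `l = 0` if
`C ≤ 1`.

(2) In particular `L_2 = 0` and `U_2 = e` almost surely.

(3) Almost surely, for all functions `h` at the same time: if `h(x)/(log x)²` tends to infinity and `h(x)/x` tends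
to `0` then `L(h) = U(h) = 1`; if `0 < h(x) ≤ c (log x)²` for all large `x`, `c < 1`, then `L(h) = 0`.

(4) For `C > 0` and `0 ≤ y < 1` with `C g(y) < 1`: almost surely the number of the integers `n ≤ N` with at most
`y C log n` chosen elements in `(n, n + C (log n)²]` is `N^(1 - C g(y) + o(1))`; the same holds for `y > 1` with
`C g(y) < 1` and at least `y C log n` chosen elements.

So `(log x)²` is the critical length in these models, the limits at the critical scale are the numbers `l < 1 < u`,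
and the transition to `L = U = 1` takes place as `C → ∞` with the explicit functions `l`, `u` of `C`.

Proof. Upper bounds for the tails by Chernoff's method; lower bounds: the probability of exactly `K` chosen elements
is at least `∏ (1 - p_m)` times the elementary symmetric function `e_K` of the `p_m`, and
`e_K ≥ (Σ p_m - 2 δ K)^K / K!` if all `p_m ≤ δ` and `4 δ K ≤ Σ p_m`; the windows at the integers `⌊j^(1+δ)⌋` are
disjoint, so that their events are independent. The sums of the `p_m` are given by the fundamental lemma (library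
`Pool.Agent.U839.Sv.regular`). For (3) long windows are divided into windows of length `K (log n)²`, to all of which
(1) applies for large `K`.
-/

open MeasureTheory ProbabilityTheory Filter Topology

namespace Pool.Agent.Results.MP_b09185_nt.CriticalScale

open Classical in
/-- `∏_{p ≤ T(m)} (1 - 1/p)⁻¹` if `m` has no prime factor `p ≤ T(m)`, and `0` otherwise. -/
noncomputable def weight (T : ℕ → ℕ) (m : ℕ) : ℝ :=
  if ∀ p, p.Prime → p ≤ T m → ¬ p ∣ m then
    ∏ p ∈ (Finset.Icc 1 (T m)).filter Nat.Prime, (1 - 1 / (p : ℝ))⁻¹ else 0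

/-- The random model: `E m` is the event that `m` is chosen; these events are independent and have
probability `weight T m / log m` (if this is at most `1`, which is the case for all large `m` here). -/
structure Model {Ω : Type*} [MeasurableSpace Ω] (μ : Measure Ω) (T : ℕ → ℕ) (E : ℕ → Set Ω) : Prop where
  meas : ∀ m, MeasurableSet (E m)
  indep : iIndepSet E μ
  law : ∀ m : ℕ, μ.real (E m) = min 1 (weight T m / Real.log m)

/-- `T` is nondecreasing and smaller than every power of `log n`. -/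
def Small (T : ℕ → ℕ) : Prop :=
  Monotone T ∧ ∀ θ : ℝ, 0 < θ → ∀ᶠ n : ℕ in atTop, (T n : ℝ) ≤ (Real.log n) ^ θ

/-- the number of the elements of `Q` in `(x, x + t]` -/
noncomputable def num (Q : Set ℕ) (x t : ℝ) : ℕ := Set.ncard {m : ℕ | m ∈ Q ∧ x < m ∧ (m : ℝ) ≤ x + t}

/-- `R_h(x)` of the problem, with the elements of `Q` in the place of the primes -/
noncomputable def R (Q : Set ℕ) (h : ℝ → ℝ) (x : ℝ) : ℝ := Real.log x / h x * (num Q x (h x) : ℝ)

/-- the lower limit `L(h)` -/
noncomputable def L (Q : Set ℕ) (h : ℝ → ℝ) : EReal := liminf (fun x : ℝ => (R Q h x : EReal)) atTop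

/-- the upper limit `U(h)` -/
noncomputable def U (Q : Set ℕ) (h : ℝ → ℝ) : EReal := limsup (fun x : ℝ => (R Q h x : EReal)) atTop

/-- `g(y) = 1 - y + y log y` (where `0 log 0 = 0`) -/
noncomputable def g (y : ℝ) : ℝ := 1 - y + y * Real.log y

/-- the number of the integers `0 ≤ n ≤ N` with `P n` -/
noncomputable def count (P : ℕ → Prop) (N : ℕ) : ℕ := Set.ncard {n | n ≤ N ∧ P n}

theorem wins {Ω : Type*} [MeasurableSpace Ω] {μ : Measure Ω} [IsProbabilityMeasure μ] {T : ℕ → ℕ}
    {E : ℕ → Set Ω} (hT : Small T) (hE : Model μ T E) (C : ℝ) (hC : 0 < C) :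
    Pool.Agent.U746.LD.Win μ E (Pool.Agent.U746.LD.WI C) C :=
  Pool.Agent.U746.LD.win hE.meas hE.indep hT.1 hT.2 hE.law hC

theorem num_card {Ω : Type*} (E : ℕ → Set Ω) (ω : Ω) (C : ℝ) (hC : 0 < C) (n : ℕ) :
    num {m | ω ∈ E m} n (C * (Real.log n) ^ 2) =
      (Pool.Agent.U746.LD.pat E (Pool.Agent.U746.LD.WI C n) ω).card := by
  rw [Pool.Agent.U746.LD.sc_pat]
  exact Pool.Agent.U746.LD.cr_nat _ C hC n

/-- (1), (2), (3), (4) -/
theorem result.{w} :
    ∀ T : ℕ → ℕ, Small T → ∀ (Ω : Type w) [MeasurableSpace Ω] (μ : Measure Ω)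
      [IsProbabilityMeasure μ] (E : ℕ → Set Ω), Model μ T E →
    -- (1)
    (∀ C : ℝ, 0 < C → ∃ l u : ℝ, 0 ≤ l ∧ l < 1 ∧ 1 < u ∧ C * g u = 1 ∧ (C ≤ 1 → l = 0) ∧
      (1 < C → 0 < l ∧ C * g l = 1) ∧
      ∀ᵐ ω ∂μ, L {m | ω ∈ E m} (fun x => C * (Real.log x) ^ 2) = l ∧
        U {m | ω ∈ E m} (fun x => C * (Real.log x) ^ 2) = u) ∧
    -- (2)
    (∀ᵐ ω ∂μ, L {m | ω ∈ E m} (fun x => (Real.log x) ^ 2) = 0 ∧
      U {m | ω ∈ E m} (fun x => (Real.log x) ^ 2) = Real.exp 1) ∧
    -- (3)
    (∀ᵐ ω ∂μ, ∀ h : ℝ → ℝ,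
      (Tendsto (fun x : ℝ => h x / (Real.log x) ^ 2) atTop atTop →
        Tendsto (fun x : ℝ => h x / x) atTop (𝓝 0) →
        L {m | ω ∈ E m} h = 1 ∧ U {m | ω ∈ E m} h = 1) ∧
      ((∃ c : ℝ, c < 1 ∧ ∀ᶠ x : ℝ in atTop, 0 < h x ∧ h x ≤ c * (Real.log x) ^ 2) →
        L {m | ω ∈ E m} h = 0)) ∧
    -- (4)
    (∀ C : ℝ, 0 < C → ∀ y : ℝ, C * g y < 1 →
      (0 ≤ y → y < 1 → ∀ᵐ ω ∂μ, ∀ ε : ℝ, 0 < ε → ∀ᶠ N : ℕ in atTop,
        (N : ℝ) ^ (1 - C * g y - ε) ≤
          (count (fun n => (num {m | ω ∈ E m} n (C * (Real.log n) ^ 2) : ℝ) ≤ y * (C * Real.log n)) N : ℝ) ∧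
        (count (fun n => (num {m | ω ∈ E m} n (C * (Real.log n) ^ 2) : ℝ) ≤ y * (C * Real.log n)) N : ℝ) ≤
          (N : ℝ) ^ (1 - C * g y + ε)) ∧
      (1 < y → ∀ᵐ ω ∂μ, ∀ ε : ℝ, 0 < ε → ∀ᶠ N : ℕ in atTop,
        (N : ℝ) ^ (1 - C * g y - ε) ≤
          (count (fun n => y * (C * Real.log n) ≤ (num {m | ω ∈ E m} n (C * (Real.log n) ^ 2) : ℝ)) N : ℝ) ∧
        (count (fun n => y * (C * Real.log n) ≤ (num {m | ω ∈ E m} n (C * (Real.log n) ^ 2) : ℝ)) N : ℝ) ≤
          (N : ℝ) ^ (1 - C * g y + ε))) := by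
  intro T hT Ω _ μ _ E hE
  have hW := wins hT hE
  refine ⟨?_, ?_, ?_, ?_⟩
  · intro C hC
    obtain ⟨u, hu, hCu⟩ := Pool.Agent.U746.LD.exists_u C hC
    have hU := Pool.Agent.U746.LD.UU_crit (hW C hC) u hu hCu
    rcases le_or_gt C 1 with h1 | h1
    · have hL := Pool.Agent.U746.LD.LL_crit (hW C hC) 0 le_rfl one_pos (by
        intro y hy0 hy1
        have h2 := Pool.Agent.U746.LD.rate_anti 0 y le_rfl hy0 hy1.le
        rw [Pool.Agent.U746.LD.rate_zero] at h2
        have h3 := Pool.Agent.U746.LD.rate_nonneg y hy0.le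
        nlinarith) (fun y hy0 hy1 => absurd hy1 (not_lt.2 hy0))
      refine ⟨0, u, le_rfl, one_pos, hu, hCu, fun _ => rfl, fun h => absurd h (not_lt.2 h1), ?_⟩
      filter_upwards [hL, hU] with ω g1 g2
      exact ⟨g1, g2⟩
    · obtain ⟨l, hl0, hl1, hCl⟩ := Pool.Agent.U746.LD.exists_l C h1
      have hL := Pool.Agent.U746.LD.LL_crit (hW C hC) l hl0.le hl1 (by
        intro y hy0 hy1
        have h2 := Pool.Agent.U746.LD.rate_anti l y hl0.le hy0 hy1.le
        nlinarith) (by
        intro y hy0 hy1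
        have h2 := Pool.Agent.U746.LD.rate_anti y l hy0 hy1 hl1.le
        nlinarith)
      refine ⟨l, u, hl0.le, hl1, hu, hCu, fun h => absurd h1 (not_lt.2 h), fun _ => ⟨hl0, hCl⟩, ?_⟩
      filter_upwards [hL, hU] with ω g1 g2
      exact ⟨g1, g2⟩
  · have hL := Pool.Agent.U746.LD.LL_crit (hW 1 one_pos) 0 le_rfl one_pos (by
      intro y hy0 hy1
      have h2 := Pool.Agent.U746.LD.rate_anti 0 y le_rfl hy0 hy1.le
      rw [Pool.Agent.U746.LD.rate_zero] at h2
      linarith) (fun y hy0 hy1 => absurd hy1 (not_lt.2 hy0))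
    have hU := Pool.Agent.U746.LD.UU_crit (hW 1 one_pos) (Real.exp 1)
      (Real.one_lt_exp_iff.2 one_pos) (by
        unfold Pool.Agent.U746.LD.rate
        rw [Real.log_exp]
        ring)
    filter_upwards [hL, hU] with ω g1 g2
    have h1 : (fun x : ℝ => (1 : ℝ) * (Real.log x) ^ 2) = fun x => (Real.log x) ^ 2 := by
      ext x
      rw [one_mul]
    rw [h1] at g1 g2
    exact ⟨g1, g2⟩
  · filter_upwards [Pool.Agent.U746.LD.all_long hW, Pool.Agent.U746.LD.all_short hW] with ω g1 g2
    intro h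
    refine ⟨fun h1 h2 => g1 h ?_ ?_, ?_⟩
    · intro M
      filter_upwards [h1.eventually_ge_atTop M, Real.tendsto_log_atTop.eventually_gt_atTop 0] with x k1 k2
      rwa [le_div_iff₀ (by positivity)] at k1
    · intro δ hδ
      filter_upwards [h2.eventually (gt_mem_nhds hδ), eventually_gt_atTop 0] with x k1 k2
      rw [div_lt_iff₀ k2] at k1
      exact k1.le
    · rintro ⟨c, hc, h3⟩
      exact g2 h c hc h3
  · intro C hC y hy
    refine ⟨fun hy0 hy1 => ?_, fun hy1 => ?_⟩
    · filter_upwards [Pool.Agent.U746.LD.w_lt_num (hW C hC) y hy0 hy1 hy] with ω hω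
      intro ε hε
      filter_upwards [hω ε hε] with N hN
      have h1 : count (fun n => (num {m | ω ∈ E m} n (C * (Real.log n) ^ 2) : ℝ) ≤ y * (C * Real.log n)) N =
          Pool.Agent.U746.LD.num
            (Pool.Agent.U746.LD.WL E (Pool.Agent.U746.LD.WI C) C y) ω N := by
        simp only [num_card E ω C hC]
        rfl
      rw [h1]
      exact hN
    · filter_upwards [Pool.Agent.U746.LD.w_gt_num (hW C hC) y hy1 hy] with ω hω
      intro ε hε
      filter_upwards [hω ε hε] with N hN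
      have h1 : count (fun n => y * (C * Real.log n) ≤ (num {m | ω ∈ E m} n (C * (Real.log n) ^ 2) : ℝ)) N =
          Pool.Agent.U746.LD.num
            (Pool.Agent.U746.LD.WG E (Pool.Agent.U746.LD.WI C) C y) ω N := by
        simp only [num_card E ω C hC]
        rfl
      rw [h1]
      exact hN

end Pool.Agent.Results.MP_b09185_nt.CriticalScale
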