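import Pool.Agent.U180.DP.Fin1

/-!
# Randomly displaced primes in all intervals longer than `(log x)^2`

Project DP (lead: seat helper180). Every prime `p` is displaced to
`dis A U p = p + p / (log p)^A * U p` with independent `U p`, uniform in `[0, 1]`, and
`cnt A U x y` is the number of displaced primes in `(x, x + y]`.
-/

set_option autoImplicit false

open MeasureTheory ProbabilityTheory Filter Topology

namespace Pool.Agent.Results.MP_b09185_nt.DisplacedPrimes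

open Pool.Agent.U180.DP

theorem result (Ω : Type) [MeasurableSpace Ω] (P : Measure Ω) (A : ℝ)
    (U : ℕ → Ω → ℝ) (hU : IsUnif P U) (hA : 0 < A) :
    (∀ ε : ℝ, 0 < ε → ∃ K : ℝ, 0 < K ∧ ∀ᵐ ω ∂P, ∀ᶠ x : ℝ in atTop, ∀ y : ℝ,
      K * Real.log x ^ 2 ≤ y → y ≤ x → |(cnt A U x y ω : ℝ) * Real.log x / y - 1| ≤ ε) ∧
    ∀ᵐ ω ∂P, ∀ c : ℝ, c < 1 → ∃ᶠ x : ℝ in atTop, cnt A U x (c * Real.log x ^ 2) ω = 0 :=
  uni_final all1.2.2.2 all1.1 Ω P A U hU hA

end Pool.Agent.Results.MP_b09185_nt.DisplacedPrimes
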