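import Pool.Agent.U265.MM.Fin
import Pool.Agent.N610.MS.BON
import Pool.Agent.N610.MS.LEG
import Pool.Agent.N610.MS.CNT
import Pool.Agent.N610.MS.ROWS
import Pool.Agent.N610.MS.MAIN

set_option autoImplicit false

/-!
# Maier's irregularities along `⌊α n ^ c⌋`, at one scale only, for all exponents at once

Maier's theorem, `L_a < 1 < U_a`, is proved with integers in residue classes to a large modulus, and
says nothing about a thin sequence given in advance. We show that for every `c > 1` and for all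
`α > 0` outside a set of Hausdorff dimension less than `1` the irregularities of the primes in the
intervals of length `(log x) ^ a` are visible at the members `x` of the sequence `⌊α n ^ c⌋`, which has
only about `x ^ (1 / c)` members up to `x`: at `N ^ (1 - o(1))` of the `n ≤ N`, for all real `a > 0`
simultaneously, in both directions, at one scale only, and with no asymptotic linear relation between
the different scales.

Proof. Starting files used: the weights on the integers in `(X, 3 X)` with separation of scales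
(`Pool/Agent/N610/MS`), and the sampling law for polynomially many sets of integers in each dyadic
block along the sequence (`Pool/Agent/Y854/GM/Samp.lean`). The weights on the integers live on the
multiples of a large modulus, which change with `X` and of which nothing is known; so the sampling law
is applied to the digits of the products of the weights and the densities `R(t, y)`, at the scales of a
geometric grid, in pairs of blocks, uniformly (`Blk`, `Tr`). The densities at the other scales follow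
from the monotonicity of the number of primes (`Sand`). The constant `κ(a)` of the separation of scales
is not bounded below for `a` in compact sets; all real exponents follow from countably many because the
intervals `[b, b + κ(b))` have a countable subcover (`Core`, `Dyad`).
-/

namespace Pool.Agent.Results.MP_b09185_nt.MetricMaier

open Finset Filter MeasureTheory

/-- `R(x, y) = (π(x + y) - π(x)) / (y / log x)` -/
noncomputable def R (x y : ℝ) : ℝ :=
  ((Nat.primeCounting ⌊x + y⌋₊ : ℝ) - Nat.primeCounting ⌊x⌋₊) / (y / Real.log x)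

/-- the members of the sequence `⌊α n ^ c⌋` -/
noncomputable def sq (α c : ℝ) (n : ℕ) : ℕ := ⌊α * (n : ℝ) ^ c⌋₊

/-- the mean value of `R(⌊α n ^ c⌋, y)` over `n ∈ S`, with the weights `w n` -/
noncomputable def mean (α c : ℝ) (S : Finset ℕ) (w : ℕ → ℝ) (y : ℝ) : ℝ := ∑ n ∈ S, w n * R (sq α c n) y

/-- nonnegative weights `w n` with sum `1` for `n ∈ S`, each at most `X ^ (ε - 1 / c)`, and
`X / 2 < ⌊α n ^ c⌋ ≤ 3 X` for `n ∈ S` -/
def Weights (α c X ε : ℝ) (S : Finset ℕ) (w : ℕ → ℝ) : Prop :=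
  (∀ n ∈ S, X / 2 < sq α c n ∧ (sq α c n : ℝ) ≤ 3 * X) ∧
    (∀ n ∈ S, 0 ≤ w n ∧ w n ≤ X ^ (ε - 1 / c)) ∧ ∑ n ∈ S, w n = 1

open Classical in
/-- Let `c > 1`. There is a set `E` of real numbers of Hausdorff dimension less than `1` such that for
all `α > 0` outside `E`, with `x_n = ⌊α n ^ c⌋`:
(1) For every `a > 0` there is `δ > 0` such that for every `ε > 0` and all large `N` at least
`N ^ (1 - ε)` of the `n ≤ N` satisfy `R(x_n, (log x_n) ^ a) ≥ 1 + δ`, and at least `N ^ (1 - ε)` of them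
satisfy `R(x_n, (log x_n) ^ a) ≤ 1 - δ`.
(2) For all `a, η > 0` there is `κ > 0` such that for all `C > 0` and both signs `σ` there is `δ > 0`
such that for all `ε > 0` and all large `X` there are weights as above for which the mean of
`σ (R(x_n, y) - 1)` is at least `δ` for `(log X) ^ a ≤ y ≤ (log X) ^ (a + κ)`, at least `- δ / C` for
`(log X) ^ a ≤ y ≤ X ^ (4 / 5)`, and its absolute value is at most `δ / C` for
`(log X) ^ (a + η) ≤ y ≤ X ^ (4 / 5)`.
(3) Let `μ` be a finite measure on `[a, A]`, `a > 0`, and `f` a bounded measurable function,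
nonnegative on `[a, a + η]` for some `η > 0`, the integral of which over `[a, a + κ]` is positive
for all `κ > 0`. Then there is `δ > 0` such that for every `ε > 0` and all large `N` at least
`N ^ (1 - ε)` of the `n ≤ N` satisfy `∫ f(t) (R(x_n, (log x_n) ^ t) - 1) dμ(t) ≥ δ`, and at least
`N ^ (1 - ε)` of them satisfy `∫ f(t) (R(x_n, (log x_n) ^ t) - 1) dμ(t) ≤ - δ`. -/
theorem result : ∀ c : ℝ, 1 < c → ∃ E : Set ℝ, dimH E < 1 ∧ ∀ α : ℝ, 0 < α → α ∉ E →
    (∀ a : ℝ, 0 < a → ∃ δ : ℝ, 0 < δ ∧ ∀ ε : ℝ, 0 < ε → ∀ᶠ N : ℕ in atTop,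
      (N : ℝ) ^ (1 - ε) ≤ (((Icc 1 N).filter (fun n =>
        1 + δ ≤ R (sq α c n) (Real.log (sq α c n) ^ a))).card : ℝ) ∧
      (N : ℝ) ^ (1 - ε) ≤ (((Icc 1 N).filter (fun n =>
        R (sq α c n) (Real.log (sq α c n) ^ a) ≤ 1 - δ)).card : ℝ)) ∧
    (∀ a η : ℝ, 0 < a → 0 < η → ∃ κ : ℝ, 0 < κ ∧
      ∀ (C σ : ℝ), 0 < C → (σ = 1 ∨ σ = -1) → ∃ δ : ℝ, 0 < δ ∧ ∀ ε : ℝ, 0 < ε →
        ∀ᶠ X : ℝ in atTop, ∃ (S : Finset ℕ) (w : ℕ → ℝ), Weights α c X ε S w ∧
          (∀ y : ℝ, Real.log X ^ a ≤ y → y ≤ Real.log X ^ (a + κ) →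
            δ ≤ σ * (mean α c S w y - 1)) ∧
          (∀ y : ℝ, Real.log X ^ a ≤ y → y ≤ X ^ (4 / 5 : ℝ) →
            -(δ / C) ≤ σ * (mean α c S w y - 1)) ∧
          (∀ y : ℝ, Real.log X ^ (a + η) ≤ y → y ≤ X ^ (4 / 5 : ℝ) →
            |mean α c S w y - 1| ≤ δ / C)) ∧
    ∀ (μ : Measure ℝ), IsFiniteMeasure μ → ∀ (f : ℝ → ℝ) (B a η A : ℝ),
      Measurable f → (∀ t, |f t| ≤ B) → 0 < a → 0 < η → μ (Set.Iio a) = 0 → μ (Set.Ioi A) = 0 →
      (∀ t, a ≤ t → t ≤ a + η → 0 ≤ f t) →
      (∀ κ : ℝ, 0 < κ → 0 < ∫ t in Set.Icc a (a + κ), f t ∂μ) →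
      ∃ δ : ℝ, 0 < δ ∧ ∀ ε : ℝ, 0 < ε → ∀ᶠ N : ℕ in atTop,
        (N : ℝ) ^ (1 - ε) ≤ (((Icc 1 N).filter (fun n =>
          (∫ t, f t ∂μ) + δ ≤ ∫ t, f t * R (sq α c n) (Real.log (sq α c n) ^ t) ∂μ)).card : ℝ) ∧
        (N : ℝ) ^ (1 - ε) ≤ (((Icc 1 N).filter (fun n =>
          ∫ t, f t * R (sq α c n) (Real.log (sq α c n) ^ t) ∂μ ≤ (∫ t, f t ∂μ) - δ)).card : ℝ) := by
  intro c hc
  obtain ⟨E, hE, hlaw⟩ := Pool.Agent.U265.MM.all_scales
    (Pool.Agent.N610.MS.t_MAIN (Pool.Agent.N610.MS.t_CNT Pool.Agent.N610.MS.t_BON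
      (Pool.Agent.N610.MS.t_LEG Pool.Agent.N610.MS.t_BON)) Pool.Agent.N610.MS.t_ROWS) c hc
  refine ⟨E, hE, fun α hα hαE => ⟨?_, ?_, ?_⟩⟩
  · exact Pool.Agent.U265.MM.part3 hα hc (hlaw α hα hαE)
  · exact Pool.Agent.U265.MM.part1 hα hc (hlaw α hα hαE)
  · exact Pool.Agent.U265.MM.part2 hα hc (hlaw α hα hαE)

end Pool.Agent.Results.MP_b09185_nt.MetricMaier
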