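import Mathlib
import Pool.Agent.U6.SM.Fin2

set_option autoImplicit false

/-!
# The numbers `L_a`, `U_a` in random models of the primes with a sieve

Let `T` be a nondecreasing function of `n`, at most a power of `log n`. Choose each integer `m` without prime
factors `p ≤ T(m)` independently with probability `∏_{p ≤ T(m)} (1 - 1/p)⁻¹ / log m` (`T = 0` is Cramér's
model, `T(n)` of the size of `log n` is Granville's modification of it), and let `L_a`, `U_a` be the lower and
upper limit of the question, with the chosen integers in the place of the primes. Almost surely, for all real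
numbers `a` at the same time:

1. `L_a → 1` and `U_a → 1` as `a → ∞`: the answer to the question is yes in every one of these models, and
   `|L_a - 1|`, `|U_a - 1|` are exponentially small in `a / A` if `T(n) ≤ (log n) ^ A`;
2. `L_a = 0` for `0 < a < 2`;
3. if `T(n) = (log n) ^ o(1)` then `L_a = U_a = 1` for all `a > 2`, and `U_a = ∞` for `0 < a < 2`;
4. if `T(n) ≥ (log n) / 1000` for large `n` then `L_a < 1 < U_a` for all `a > 2`, as for the primes (Maier).

So the models with a sieve of the size of a power of `log n` (at least the first one) show both Maier's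
irregularities for all `a` and the limits expected in the question, and Cramér's model has only the second
property.

Proof. The fundamental lemma of the sieve in windows for the weights (`U839.Sv.stretch`), Chernoff bounds for all
windows at the same time, the Borel-Cantelli lemmas; for 4. Maier's matrix in the model, whose modulus is a
product of primes between two small powers of `log n` chosen as in `N610.MS.CNT` (starting library). It is
essential that the chosen integers in the columns are counted by the fundamental lemma for the remaining primes.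
-/

open MeasureTheory ProbabilityTheory Filter Topology

namespace Pool.Agent.Results.MP_b09185_nt.ThresholdInSievedModels

open Classical in
/-- `∏_{p ≤ T(m)} (1 - 1/p)⁻¹` if `m` has no prime factor `p ≤ T(m)`, and `0` otherwise. -/
noncomputable def weight (T : ℕ → ℕ) (m : ℕ) : ℝ :=
  if ∀ p, p.Prime → p ≤ T m → ¬ p ∣ m then
    ∏ p ∈ (Finset.Icc 1 (T m)).filter Nat.Prime, (1 - 1 / (p : ℝ))⁻¹ else 0

/-- The random model: `E m` is the event that `m` is chosen; these events are independent and have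
probability `weight T m / log m` (if this is at most `1`, which is the case for all large `m` here). -/
structure Model {Ω : Type*} [MeasurableSpace Ω] (μ : Measure Ω) (T : ℕ → ℕ) (E : ℕ → Set Ω) : Prop where
  meas : ∀ m, MeasurableSet (E m)
  indep : iIndepSet E μ
  law : ∀ m : ℕ, μ.real (E m) = min 1 (weight T m / Real.log m)

/-- `R_h(x)` of the problem for `h = (log x) ^ a`, with the elements of `Q` in the place of the primes -/
noncomputable def R (Q : Set ℕ) (a x : ℝ) : ℝ :=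
  Real.log x / (Real.log x) ^ a * ({m : ℕ | m ∈ Q ∧ x < m ∧ (m : ℝ) ≤ x + (Real.log x) ^ a}.ncard : ℝ)

/-- the lower limit -/
noncomputable def L (Q : Set ℕ) (a : ℝ) : EReal := liminf (fun x : ℝ => (R Q a x : EReal)) atTop

/-- the upper limit -/
noncomputable def U (Q : Set ℕ) (a : ℝ) : EReal := limsup (fun x : ℝ => (R Q a x : EReal)) atTop

theorem U_le {f : ℝ → ℝ} {c : ℝ} (h : ∀ c', c < c' → ∀ᶠ x in atTop, f x ≤ c') :
    limsup (fun x => (f x : EReal)) atTop ≤ c := by
  refine le_of_forall_gt_imp_ge_of_dense ?_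
  intro b hb
  obtain ⟨r, hr1, hr2⟩ := EReal.lt_iff_exists_real_btwn.1 hb
  refine (limsup_le_of_le (h := ?_)).trans hr2.le
  filter_upwards [h r (by exact_mod_cast hr1)] with x hx
  exact_mod_cast hx

theorem le_L {f : ℝ → ℝ} {c : ℝ} (h : ∀ c', c' < c → ∀ᶠ x in atTop, c' ≤ f x) :
    (c : EReal) ≤ liminf (fun x => (f x : EReal)) atTop := by
  refine le_of_forall_lt_imp_le_of_dense ?_
  intro b hb
  obtain ⟨r, hr1, hr2⟩ := EReal.lt_iff_exists_real_btwn.1 hb
  refine hr1.le.trans (le_liminf_of_le (h := ?_))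
  filter_upwards [h r (by exact_mod_cast hr2)] with x hx
  exact_mod_cast hx

theorem le_U {f : ℝ → ℝ} {c : ℝ} (h : ∃ᶠ x in atTop, c ≤ f x) :
    (c : EReal) ≤ limsup (fun x => (f x : EReal)) atTop :=
  le_limsup_of_frequently_le (h.mono fun x hx => by exact_mod_cast hx)

theorem L_le {f : ℝ → ℝ} {c : ℝ} (h : ∃ᶠ x in atTop, f x ≤ c) :
    liminf (fun x => (f x : EReal)) atTop ≤ c :=
  liminf_le_of_frequently_le (h.mono fun x hx => by exact_mod_cast hx)

theorem L_le_U (Q : Set ℕ) (a : ℝ) : L Q a ≤ U Q a := liminf_le_limsup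

/-- (1)-(4) -/
theorem result.{u} (T : ℕ → ℕ) (hT : Monotone T) (A : ℝ) (hA : 0 < A)
    (hTA : ∀ᶠ n : ℕ in atTop, (T n : ℝ) ≤ (Real.log n) ^ A)
    (Ω : Type u) [MeasurableSpace Ω] (μ : Measure Ω) [IsProbabilityMeasure μ] (E : ℕ → Set Ω)
    (hE : Model μ T E) :
    ∀ᵐ ω ∂μ,
      -- (1) the limits of the question, and a rate
      (Tendsto (fun a : ℝ => L {m | ω ∈ E m} a) atTop (𝓝 1) ∧
        Tendsto (fun a : ℝ => U {m | ω ∈ E m} a) atTop (𝓝 1)) ∧
      (∀ (k : ℕ) (a : ℝ), 13 ≤ k → 2 < a → A * (8 * k + 18) < a →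
        ((1 - 2 ^ 25 * (1 / 2) ^ (2 * k) : ℝ) : EReal) ≤ L {m | ω ∈ E m} a ∧
        U {m | ω ∈ E m} a ≤ ((1 + 2 ^ 25 * (1 / 2) ^ (2 * k) : ℝ) : EReal)) ∧
      -- (2)
      (∀ a : ℝ, 0 < a → a < 2 → L {m | ω ∈ E m} a = 0) ∧
      -- (3)
      ((∀ θ : ℝ, 0 < θ → ∀ᶠ n : ℕ in atTop, (T n : ℝ) ≤ (Real.log n) ^ θ) →
        (∀ a : ℝ, 2 < a → L {m | ω ∈ E m} a = 1 ∧ U {m | ω ∈ E m} a = 1) ∧
        (∀ a : ℝ, 0 < a → a < 2 → U {m | ω ∈ E m} a = ⊤)) ∧
      -- (4)
      ((∀ᶠ n : ℕ in atTop, Real.log n / 1000 ≤ T n) →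
        ∀ a : ℝ, 2 < a → L {m | ω ∈ E m} a < 1 ∧ 1 < U {m | ω ∈ E m} a) := by
  classical
  have hl : ∀ n, μ.real (E n) = Pool.Agent.U6.SM.pr T n := hE.law
  have hTs := Pool.Agent.U839.Sv.sub_pow T A hTA
  have hemp : ∀ᵐ ω ∂μ, ∀ q : ℚ, (0 : ℝ) < q → (q : ℝ) < 2 → ∃ᶠ n : ℕ in atTop,
      ∀ m ∈ Finset.Ioc n (n + ⌊(Real.log n) ^ (q : ℝ)⌋₊), ω ∉ E m := by
    rw [ae_all_iff]
    intro q
    by_cases h1 : (0 : ℝ) < q
    · by_cases h2 : (q : ℝ) < 2
      · filter_upwards [Pool.Agent.U6.SM.empty hE.meas hE.indep T hl A hA hTA q h1 h2] with ω hω _ _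
        exact hω
      · exact Eventually.of_forall fun ω _ h => absurd h h2
    · exact Eventually.of_forall fun ω h _ => absurd h h1
  have hcr : ∀ᵐ ω ∂μ, ∀ q s : ℚ, (∀ θ : ℝ, 0 < θ → ∀ᶠ n : ℕ in atTop, (T n : ℝ) ≤ (Real.log n) ^ θ) →
      (0 : ℝ) < s → (s : ℝ) < 1 → (s : ℝ) < q → ∃ᶠ n : ℕ in atTop,
      (Real.log n) ^ (s : ℝ) ≤ Pool.Agent.U839.Gb.SS E (Finset.Ioc n (n + ⌊(Real.log n) ^ (q : ℝ)⌋₊)) ω := by
    rw [ae_all_iff]
    intro q
    rw [ae_all_iff]
    intro s
    by_cases h : (∀ θ : ℝ, 0 < θ → ∀ᶠ n : ℕ in atTop, (T n : ℝ) ≤ (Real.log n) ^ θ) ∧ (0 : ℝ) < s ∧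
        (s : ℝ) < 1 ∧ (s : ℝ) < q
    · filter_upwards [Pool.Agent.U6.SM.crowded hE.meas hE.indep T hT hl h.1 q s h.2.1 h.2.2.1 h.2.2.2]
        with ω hω _ _ _ _
      exact hω
    · exact Eventually.of_forall fun ω h1 h2 h3 h4 => absurd ⟨h1, h2, h3, h4⟩ h
  filter_upwards [Pool.Agent.U6.SM.con_ae hE.meas hE.indep, hemp, hcr] with ω h1 h2 h3
  have hR : ∀ a x, R {m | ω ∈ E m} a x = Pool.Agent.U6.SM.RR {m | ω ∈ E m} a x := fun a x => rfl
  have rate : ∀ (A' : ℝ), 0 < A' → (∀ᶠ n : ℕ in atTop, (T n : ℝ) ≤ (Real.log n) ^ A') →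
      ∀ (k : ℕ) (a : ℝ), 13 ≤ k → 2 < a → A' * (8 * k + 18) < a →
        ((1 - 2 ^ 25 * (1 / 2) ^ (2 * k) : ℝ) : EReal) ≤ L {m | ω ∈ E m} a ∧
        U {m | ω ∈ E m} a ≤ ((1 + 2 ^ 25 * (1 / 2) ^ (2 * k) : ℝ) : EReal) := by
    intro A' hA' hTA' k a hk ha2 ha
    have hm := fun ε hε => Pool.Agent.U6.SM.main_A h1 T hT hl A' hA' hTA' k hk a ha2 ha ε hε
    constructor
    · apply le_L
      intro c' hc'
      filter_upwards [hm (1 - 2 ^ 25 * (1 / 2) ^ (2 * k) - c') (by linarith)] with x hx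
      have := (abs_le.1 hx).1
      rw [hR]
      linarith
    · apply U_le
      intro c' hc'
      filter_upwards [hm (c' - (1 + 2 ^ 25 * (1 / 2) ^ (2 * k))) (by linarith)] with x hx
      have := (abs_le.1 hx).2
      rw [hR]
      linarith
  have near : ∀ r : ℝ, 0 < r → ∃ k : ℕ, 13 ≤ k ∧ (2 : ℝ) ^ 25 * (1 / 2) ^ (2 * k) ≤ r :=
    fun r hr => Pool.Agent.U839.Sv.exists_R r hr
  -- the two one-sided limits
  have lowT : ∀ b : EReal, b < 1 → ∀ᶠ a : ℝ in atTop, b < L {m | ω ∈ E m} a := by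
    intro b hb
    obtain ⟨r, hr1, hr2⟩ := EReal.lt_iff_exists_real_btwn.1 hb
    have hr2' : r < 1 := by exact_mod_cast hr2
    obtain ⟨k, hk, hk2⟩ := near ((1 - r) / 2) (by linarith)
    filter_upwards [eventually_gt_atTop 2, eventually_gt_atTop (A * (8 * k + 18))] with a q1 q2
    refine hr1.trans_le (le_trans ?_ (rate A hA hTA k a hk q1 q2).1)
    have : r ≤ 1 - 2 ^ 25 * (1 / 2) ^ (2 * k) := by linarith
    exact_mod_cast this
  have upT : ∀ b : EReal, 1 < b → ∀ᶠ a : ℝ in atTop, U {m | ω ∈ E m} a < b := by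
    intro b hb
    obtain ⟨r, hr1, hr2⟩ := EReal.lt_iff_exists_real_btwn.1 hb
    have hr1' : 1 < r := by exact_mod_cast hr1
    obtain ⟨k, hk, hk2⟩ := near ((r - 1) / 2) (by linarith)
    filter_upwards [eventually_gt_atTop 2, eventually_gt_atTop (A * (8 * k + 18))] with a q1 q2
    refine lt_of_le_of_lt ((rate A hA hTA k a hk q1 q2).2.trans ?_) hr2
    have : 1 + 2 ^ 25 * (1 / 2) ^ (2 * k) ≤ r := by linarith
    exact_mod_cast this
  have hLz : ∀ a : ℝ, 0 < a → a < 2 → L {m | ω ∈ E m} a = 0 := by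
    intro a ha0 ha2
    apply le_antisymm
    · obtain ⟨q, hq1, hq2⟩ := exists_rat_btwn ha2
      have := Pool.Agent.U6.SM.main_B a q hq1.le (h2 q (by linarith) hq2)
      have h4 : L {m | ω ∈ E m} a ≤ ((0 : ℝ) : EReal) := L_le this
      exact h4
    · have h4 : ((0 : ℝ) : EReal) ≤ L {m | ω ∈ E m} a := by
        apply le_L
        intro c' hc'
        filter_upwards [eventually_ge_atTop (1 : ℝ)] with x hx
        unfold R
        have h5 : 0 ≤ Real.log x := Real.log_nonneg hx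
        have h6 : 0 ≤ Real.log x / (Real.log x) ^ a *
            ({m : ℕ | m ∈ {m | ω ∈ E m} ∧ x < m ∧ (m : ℝ) ≤ x + (Real.log x) ^ a}.ncard : ℝ) := by positivity
        linarith
      exact h4
  refine ⟨⟨?_, ?_⟩, rate A hA hTA, hLz, ?_, ?_⟩
  · refine tendsto_order.2 ⟨lowT, fun b hb => ?_⟩
    filter_upwards [upT b hb] with a ha
    exact lt_of_le_of_lt (L_le_U _ _) ha
  · refine tendsto_order.2 ⟨fun b hb => ?_, upT⟩
    filter_upwards [lowT b hb] with a ha
    exact lt_of_lt_of_le ha (L_le_U _ _)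
  · intro hsm
    constructor
    · intro a ha2
      have hk : ∀ r : ℝ, 0 < r → ((1 - r : ℝ) : EReal) ≤ L {m | ω ∈ E m} a ∧
          U {m | ω ∈ E m} a ≤ ((1 + r : ℝ) : EReal) := by
        intro r hr
        obtain ⟨k, hk1, hk2⟩ := near r hr
        have hD : (0 : ℝ) < 8 * k + 18 := by positivity
        obtain ⟨p1, p2⟩ := rate (1 / (8 * k + 18)) (by positivity) (hsm _ (by positivity)) k a hk1 ha2 (by
          rw [one_div, inv_mul_cancel₀ hD.ne']
          linarith)
        refine ⟨le_trans ?_ p1, p2.trans ?_⟩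
        · exact_mod_cast (by linarith : 1 - r ≤ 1 - 2 ^ 25 * (1 / 2 : ℝ) ^ (2 * k))
        · exact_mod_cast (by linarith : 1 + 2 ^ 25 * (1 / 2 : ℝ) ^ (2 * k) ≤ 1 + r)
      have g1 : 1 ≤ L {m | ω ∈ E m} a := by
        refine le_of_forall_lt_imp_le_of_dense ?_
        intro b hb
        obtain ⟨r, hr1, hr2⟩ := EReal.lt_iff_exists_real_btwn.1 hb
        have hr2' : r < 1 := by exact_mod_cast hr2
        have h5 := (hk (1 - r) (by linarith)).1
        rw [sub_sub_cancel] at h5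
        exact hr1.le.trans h5
      have g2 : U {m | ω ∈ E m} a ≤ 1 := by
        refine le_of_forall_gt_imp_ge_of_dense ?_
        intro b hb
        obtain ⟨r, hr1, hr2⟩ := EReal.lt_iff_exists_real_btwn.1 hb
        have hr1' : 1 < r := by exact_mod_cast hr1
        have h5 := (hk (r - 1) (by linarith)).2
        rw [add_sub_cancel] at h5
        exact h5.trans hr2.le
      exact ⟨le_antisymm ((L_le_U _ _).trans g2) g1, le_antisymm g2 (g1.trans (L_le_U _ _))⟩
    · intro a ha0 ha2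
      rw [EReal.eq_top_iff_forall_lt]
      intro y
      obtain ⟨s, hs1, hs2⟩ := exists_rat_btwn (show max (a - 1) 0 < min 1 a by
        rw [lt_min_iff, max_lt_iff, max_lt_iff]
        exact ⟨⟨by linarith, by norm_num⟩, ⟨by linarith, ha0⟩⟩)
      obtain ⟨s1, s2⟩ := max_lt_iff.1 hs1
      obtain ⟨s3, s4⟩ := lt_min_iff.1 hs2
      obtain ⟨q, hq1, hq2⟩ := exists_rat_btwn s4
      have h4 := Pool.Agent.U6.SM.main_C a q s (y + 1) s1 hq2.le (h3 q s hsm s2 s3 hq1)
      have h5 : ((y + 1 : ℝ) : EReal) ≤ U {m | ω ∈ E m} a := le_U h4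
      refine lt_of_lt_of_le ?_ h5
      exact_mod_cast (by linarith : y < y + 1)
  · intro hTl a ha2
    obtain ⟨δ, hδ, h4, h5⟩ := Pool.Agent.U6.SM.main_D h1 T hT hl hTs hTl a ha2
    constructor
    · have h6 : L {m | ω ∈ E m} a ≤ ((1 - δ : ℝ) : EReal) := L_le h5
      refine lt_of_le_of_lt h6 ?_
      exact_mod_cast (by linarith : 1 - δ < 1)
    · have h6 : ((1 + δ : ℝ) : EReal) ≤ U {m | ω ∈ E m} a := le_U h4
      refine lt_of_lt_of_le ?_ h6
      exact_mod_cast (by linarith : 1 < 1 + δ)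

end Pool.Agent.Results.MP_b09185_nt.ThresholdInSievedModels
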